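import Pool.Agent.H21.GeoFinal
import Pool.Agent.H21.PrefMain

set_option autoImplicit false

namespace Pool.Agent.Results.MP_3489e4_al.GeodesicNotShortLex

/-- the evaluation map `π : A^* → G` for a subset `A` of a group `G` -/
def eval {G : Type} [Group G] {A : Set G} (w : List A) : G := (w.map Subtype.val).prod

/-- the padded pair of two words (the shorter word is padded at the end by the symbol `none`) -/
def conv {X : Type} (u v : List X) : List (Option X × Option X) :=
  List.ofFn (fun i : Fin (max u.length v.length) => (u[(i : ℕ)]?, v[(i : ℕ)]?))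

/-- the set of pairs `(u, v)` with `R u v` is accepted by a finite state automaton reading both
words synchronously -/
def SyncRegular {X : Type} (R : List X → List X → Prop) : Prop :=
  Language.IsRegular ({p | ∃ u v, R u v ∧ p = conv u v} : Language (Option X × Option X))

/-- `L` is (the language of) an automatic structure on `G` over the subset `A` -/
structure IsAutomaticStructure {G : Type} [Group G] (A : Set G) (L : Language A) : Prop where
  regular : L.IsRegular
  onto : ∀ g : G, ∃ w ∈ L, eval w = g
  equality : SyncRegular (fun u v => u ∈ L ∧ v ∈ L ∧ eval u = eval v)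
  multiplication : ∀ x : A, SyncRegular (fun u v => u ∈ L ∧ v ∈ L ∧ eval u * (x : G) = eval v)

/-- a word is geodesic if no word with the same value is shorter -/
def IsGeodesic {G : Type} [Group G] {A : Set G} (w : List A) : Prop :=
  ∀ v : List A, eval v = eval w → w.length ≤ v.length

/-- the ShortLex order: compare by length, then lexicographically -/
def ShortLexLT {X : Type} [LinearOrder X] (u v : List X) : Prop :=
  u.length < v.length ∨ (u.length = v.length ∧ List.Lex (· < ·) u v)

/-- the words which are ShortLex-least among all words with the same value -/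
def ShortLexLang {G : Type} [Group G] (A : Set G) [LinearOrder A] : Language A :=
  {w | ∀ v : List A, eval v = eval w → w = v ∨ ShortLexLT w v}

/-- `G` is weakly geodesically automatic with respect to `A` -/
def WeaklyGeodesicallyAutomatic {G : Type} [Group G] (A : Set G) : Prop :=
  ∃ L : Language A, IsAutomaticStructure A L ∧ ∀ w ∈ L, IsGeodesic w

/-- There are a group `G` and a finite generating set `A`, closed under inversion, such that
`G` is weakly geodesically automatic with respect to `A` but for no total order on `A` is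
`G` ShortLex-automatic with respect to `A` and this order. -/
theorem result : ∃ (G : Type) (_ : Group G) (A : Set G),
    A.Finite ∧ (∀ a ∈ A, a⁻¹ ∈ A) ∧ Subgroup.closure A = ⊤ ∧
    WeaklyGeodesicallyAutomatic A ∧
    ∀ _ : LinearOrder A, ¬ IsAutomaticStructure A (ShortLexLang A) := by
  have conv1 : ∀ {B : Type} (R : List B → List B → Prop),
      SyncRegular R ↔ (Pool.Agent.H21.Reg.Ext R).IsRegular := by
    intro B R
    rw [← Pool.Agent.H21.Tree.can_iff]
    constructor
    · rintro ⟨σ, hσ, M, hM⟩
      exact ⟨σ, inferInstance, M, fun p => by rw [hM]; rfl⟩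
    · rintro ⟨σ, hσ, M, hM⟩
      exact ⟨σ, Fintype.ofFinite σ, M, Set.ext fun p => hM p⟩
  refine ⟨Pool.Agent.H21.Geo.H, inferInstance, Pool.Agent.H21.Geo.S,
    Pool.Agent.H21.Geo.S_finite, Pool.Agent.H21.Geo.S_inv, Pool.Agent.H21.Geo.S_closure,
    ⟨Pool.Agent.H21.Geo.LS, ⟨Pool.Agent.H21.Geo.LS_regular, Pool.Agent.H21.Geo.LS_onto,
      (conv1 _).2 Pool.Agent.H21.Geo.LS_sync_one,
      fun x => (conv1 _).2 (Pool.Agent.H21.Geo.LS_sync_el x)⟩,
      fun w hw v h => Pool.Agent.H21.Geo.LS_geod hw v h⟩, ?_⟩
  intro o haut
  have : Finite Pool.Agent.H21.Geo.S := Pool.Agent.H21.Geo.S_finite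
  have : Nonempty Pool.Agent.H21.Geo.S := ⟨Pool.Agent.H21.Geo.el (true, true)⟩
  obtain ⟨z, hz⟩ := Finite.exists_min (fun a : Pool.Agent.H21.Geo.S => a)
  obtain ⟨⟨ax, σ⟩, rfl⟩ := Pool.Agent.H21.Geo.el_surj z
  obtain ⟨b, rfl⟩ : ∃ b, ax = !b := ⟨!ax, by simp⟩
  refine Pool.Agent.H21.Geo.no_sync (ShortLexLang Pool.Agent.H21.Geo.S) b σ ?_ ?_
    ((conv1 _).1 (haut.multiplication _))
  · intro m hm v hv
    obtain ⟨q, rfl⟩ := Pool.Agent.H21.Geo.words_surj v
    have hv' := (Pool.Agent.H21.Geo.ev_el_iff _ _).1 hv
    by_cases hl : q.length ≤ (Pool.Agent.H21.Geo.v0 b σ m).length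
    · left
      rw [Pool.Agent.H21.Geo.v0_unique b σ m q hv' hl]
    · right; left
      simp only [List.length_map]
      omega
  · intro m hm v hv
    obtain ⟨q, rfl⟩ := Pool.Agent.H21.Geo.words_surj v
    have hv' := (Pool.Agent.H21.Geo.ev_el_iff _ _).1 hv
    have hlen := Pool.Agent.H21.Geo.v1_len b σ m hm q hv'
    rcases hlen.eq_or_lt with hl | hl
    · cases q with
      | nil => simp at hl
      | cons x q =>
        by_cases hx : Pool.Agent.H21.Geo.el x = Pool.Agent.H21.Geo.el (!b, σ)
        · left
          have hx' : x = (!b, σ) := Pool.Agent.H21.Geo.el_inj hx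
          subst hx'
          rw [Pool.Agent.H21.Geo.evw_cons, Pool.Agent.H21.Geo.evw_cons] at hv'
          have := mul_left_cancel hv'
          rw [Pool.Agent.H21.Geo.v0_unique b σ m q this (by simp at hl; omega)]
        · right; right
          refine ⟨by simpa using hl, ?_⟩
          simp only [List.map_cons]
          exact List.Lex.rel (lt_of_le_of_ne (hz _) (fun h => hx h.symm))
    · right; left
      simpa using hl

end Pool.Agent.Results.MP_3489e4_al.GeodesicNotShortLex
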